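import Pool.Agent.Helper48.OD.St

/-! Project OD, module CT2. -/

set_option autoImplicit false

namespace Pool.Agent.Helper29.OD

open Pool.Agent.Helper43.GD Pool.Agent.Helper48.OD

theorem hCT2 (hDOD : StDOD) (hK2G : StK2G) (hXP : StXP) (hXM : StXM) : StCT2 := by
  intro L A _ _ Q v y hD hy hu
  obtain ⟨d1, d2⟩ := hDOD L A Q v hD
  obtain ⟨k1, kn, kmul, kinv, kin, kev⟩ := hK2G L A Q v hD
  haveI hfin : Finite L := hD.cb.fin
  haveI hnt : Nontrivial L := hD.cb.nt
  rcases hD.cb.ui.ev_or_od hy.1 with hev | hod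
  · exact kev y hy hev
  by_contra hng
  have hK : ∀ a c : Lˣ, K2 Q a → Od a → c ∈ Q.U → (c : L) = 1 + (a : L) → K2 Q c := by
    intro a c ha hao hc ec
    rcases d1 c hc with h | h
    · exact hXP L A Q v a c hD ha hao ec h
    · exact hXM L A Q v a c hD ha hao ec h
  have key : ∀ a : Lˣ, K2 Q a ∧ Od a → ∃ ρ : Lˣ, (K2 Q ρ ∧ Od ρ) ∧ ρ ≠ 1 ∧
      (ρ : L) * (1 + (y : L) * (a : L)) = 1 + (a : L) := by
    rintro a ⟨ha, hao⟩
    have hya : K2 Q (y * a) := kmul y a hy ha
    have hyao : Od (y * a) := hod.mul hao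
    obtain ⟨c, hc, ec⟩ := kin a ha hao
    obtain ⟨d, hd, ed⟩ := kin (y * a) hya hyao
    have hKc := hK a c ha hao hc ec
    have hKd := hK (y * a) d hya hyao hd ed
    have hρ : K2 Q (c * d⁻¹) := kmul c d⁻¹ hKc (kinv d hKd)
    rw [Units.val_mul] at ed
    have hρd : ((c * d⁻¹ : Lˣ) : L) * (d : L) = (c : L) := by
      rw [Units.val_mul, mul_assoc, Units.inv_mul, mul_one]
    have hdiff : (a : L) * (1 - (y : L)) = -((1 - ((c * d⁻¹ : Lˣ) : L)) * (d : L)) := by
      rw [sub_mul, hρd, one_mul, ec, ed]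
      ring
    have hρo : Od (c * d⁻¹) := by
      rcases hD.cb.ui.ev_or_od hρ.1 with h | h
      · exfalso
        apply hng
        have hg := kev _ hρ h
        refine ⟨hy.1, ?_⟩
        apply in_cancel Q (in_val Q ha.1)
        rw [hdiff]
        exact in_neg Q (in_mul Q hg.2 (in_val Q hd))
      · exact h
    refine ⟨c * d⁻¹, ⟨hρ, hρo⟩, ?_, ?_⟩
    · intro h1
      rw [h1, Units.val_one, sub_self, zero_mul, neg_zero] at hdiff
      have h2 : IsUnit ((a : L) * (1 - (y : L))) := a.isUnit.mul hu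
      rw [hdiff] at h2
      exact not_isUnit_zero h2
    · rw [← ed, hρd, ec]
  choose f hf1 hf2 hf3 using key
  obtain ⟨g, hg⟩ : ∃ g : {a : Lˣ // K2 Q a ∧ Od a} → {a : Lˣ // K2 Q a ∧ Od a},
      g = fun a => ⟨f a.1 a.2, hf1 a.1 a.2⟩ := ⟨_, rfl⟩
  have hinj : Function.Injective g := by
    rintro ⟨a, ha⟩ ⟨b, hb⟩ hab
    rw [hg] at hab
    have hab' : f a ha = f b hb := congrArg Subtype.val hab
    have e1 := hf3 a ha
    have e2 := hf3 b hb
    rw [hab'] at e1
    have e3 : ((a : L) - (b : L)) * (1 - (y : L)) = 0 := by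
      linear_combination (1 + (y : L) * (a : L)) * e2 - (1 + (y : L) * (b : L)) * e1
    have e4 : (a : L) - (b : L) = 0 := by
      obtain ⟨t, ht⟩ := hu
      rw [← ht] at e3
      have := congrArg (fun z => z * ((t⁻¹ : Lˣ) : L)) e3
      simpa [mul_assoc] using this
    apply Subtype.ext
    exact Units.ext (sub_eq_zero.1 e4)
  have hsurj : Function.Surjective g := Finite.injective_iff_surjective.1 hinj
  obtain ⟨⟨a, ha⟩, hga⟩ := hsurj ⟨1, k1, Od.one⟩
  rw [hg] at hga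
  exact hf2 a ha (congrArg Subtype.val hga)

end Pool.Agent.Helper29.OD
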