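import Pool.Agent.Helper95.OD.St

/-!
# Project OD (MP_e0fa86_co), module MP: conditional probabilities
-/

set_option autoImplicit false

namespace Pool.Agent.Helper29.OD

open Pool.Agent.Helper95.OD Finset
open scoped Classical

theorem av_anti {m r : ℕ} (S B : Finset (Finset (Cl m r))) (h : S ⊆ B) : Av B ⊆ Av S := by
  intro σ hσ
  unfold Av at hσ ⊢
  rw [mem_filter] at hσ ⊢
  exact ⟨hσ.1, fun N hN => hσ.2 N (h hN)⟩

theorem hMP : MP := by
  intro hND hNM0 hLL hPM m r s hHy T hT A hA
  have hNM := hNM0 hND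
  obtain ⟨hP1, hP2⟩ := hPM m r s hHy T hT A hA
  have hr16 : 16 ≤ r := hHy.2.2.1
  have hr : (0 : ℝ) < r := by exact_mod_cast (show 0 < r by omega)
  obtain ⟨-, hL2⟩ := hLL m r (Fam m r s A) (by omega) (fun N hN => (hP1 N hN).1)
    (fun N hN => (hP1 N hN).2.1) (fun N _ => by
      have h1 := hP2 N
      have h2 : (0 : ℝ) < 2 ^ N.card := by positivity
      have h3 := mul_le_mul_of_nonneg_left h1 h2.le
      rw [← mul_pow] at h3
      norm_num at h3
      exact h3)
  -- the key comparison
  have key : ∀ M : Finset (Cl m r),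
      ((Av ((Fam m r s A).filter (fun N => ¬ CC M N))).card : ℝ) ≤
        2 ^ M.card * (Av (Fam m r s A)).card := by
    intro M
    have h1 := hL2 ((Fam m r s A).filter (fun N => ¬ CC M N)) (filter_subset _ _)
      ((Fam m r s A).filter (fun N => CC M N)) (filter_subset _ _)
    have h2 : (Fam m r s A).filter (fun N => ¬ CC M N) ∪ (Fam m r s A).filter (fun N => CC M N) =
        Fam m r s A := by
      rw [union_comm]
      exact filter_union_filter_not_eq _ _
    rw [h2] at h1
    have h3 := hP2 M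
    have h4 : (1 / 2 : ℝ) ^ M.card * ((Av ((Fam m r s A).filter (fun N => ¬ CC M N))).card : ℝ) ≤
        (Av (Fam m r s A)).card :=
      (mul_le_mul_of_nonneg_right h3 (Nat.cast_nonneg _)).trans h1
    have h5 : (0 : ℝ) < 2 ^ M.card := by positivity
    have h6 := mul_le_mul_of_nonneg_left h4 h5.le
    rw [← mul_assoc, ← mul_pow] at h6
    norm_num at h6
    exact h6
  have hsub : ∀ M : Finset (Cl m r), ((Av (Fam m r s A) ∩ Ev M).card : ℝ) ≤
      (Av ((Fam m r s A).filter (fun N => ¬ CC M N)) ∩ Ev M).card := by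
    intro M
    exact_mod_cast card_le_card (inter_subset_inter_right
      (av_anti _ _ (filter_subset (fun N => ¬ CC M N) (Fam m r s A))))
  constructor
  · intro M hM
    obtain ⟨hN1, -⟩ := hNM m r ((Fam m r s A).filter (fun N => ¬ CC M N))
    have h1 := hN1 M hM (fun N hN => (mem_filter.mp hN).2)
    have h2 : ((Av ((Fam m r s A).filter (fun N => ¬ CC M N)) ∩ Ev M).card : ℝ) * (r : ℝ) ^ M.card ≤
        (Av ((Fam m r s A).filter (fun N => ¬ CC M N))).card := by exact_mod_cast h1
    have h3 : ((Av (Fam m r s A) ∩ Ev M).card : ℝ) * (r : ℝ) ^ M.card ≤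
        2 ^ M.card * (Av (Fam m r s A)).card :=
      (mul_le_mul_of_nonneg_right (hsub M) (by positivity)).trans (h2.trans (key M))
    rw [div_pow, div_mul_eq_mul_div, le_div_iff₀ (by positivity)]
    exact h3
  · intro M a b hM hMa hab h1 h2
    obtain ⟨-, hN2⟩ := hNM m r ((Fam m r s A).filter (fun N => ¬ CC (insert a (insert b M)) N))
    have h3 := hN2 M a b hM hMa hab h1 h2 (fun N hN => (mem_filter.mp hN).2)
    have h4 : ((Av ((Fam m r s A).filter (fun N => ¬ CC (insert a (insert b M)) N)) ∩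
        Ev (insert a (insert b M))).card : ℝ) * ((r : ℝ) ^ M.card * (r * (r - 1))) ≤
        (Av ((Fam m r s A).filter (fun N => ¬ CC (insert a (insert b M)) N))).card := by
      have h5 : (((r - 1 : ℕ) : ℕ) : ℝ) = (r : ℝ) - 1 := by
        rw [Nat.cast_sub (by omega)]
        simp
      rw [← h5]
      exact_mod_cast h3
    have hcard : (insert a (insert b M)).card ≤ M.card + 2 :=
      (card_insert_le _ _).trans (by
        have := card_insert_le b M
        omega)
    have h6 : (2 : ℝ) ^ (insert a (insert b M)).card ≤ 2 ^ (M.card + 2) :=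
      pow_le_pow_right₀ (by norm_num) hcard
    have h7 := key (insert a (insert b M))
    have h8 : ((Av ((Fam m r s A).filter (fun N => ¬ CC (insert a (insert b M)) N))).card : ℝ) ≤
        2 ^ (M.card + 2) * (Av (Fam m r s A)).card :=
      h7.trans (mul_le_mul_of_nonneg_right h6 (Nat.cast_nonneg _))
    have hr16' : (16 : ℝ) ≤ r := by exact_mod_cast hr16
    have h9 : (r : ℝ) ^ M.card * (r ^ 2 / 2) ≤ (r : ℝ) ^ M.card * (r * (r - 1)) := by
      apply mul_le_mul_of_nonneg_left _ (by positivity)
      nlinarith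
    have h10 : ((Av (Fam m r s A) ∩ Ev (insert a (insert b M))).card : ℝ) *
        ((r : ℝ) ^ M.card * (r ^ 2 / 2)) ≤ 2 ^ (M.card + 2) * (Av (Fam m r s A)).card := by
      refine le_trans ?_ (h4.trans h8)
      exact mul_le_mul (hsub _) h9 (by positivity) (Nat.cast_nonneg _)
    have e : 2 * (2 / (r : ℝ)) ^ (M.card + 2) * ((Av (Fam m r s A)).card : ℝ) =
        2 ^ (M.card + 2) * ((Av (Fam m r s A)).card : ℝ) / ((r : ℝ) ^ M.card * (r ^ 2 / 2)) := by
      rw [div_pow, pow_add (r : ℝ)]
      field_simp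
    rw [e, le_div_iff₀ (by positivity)]
    exact h10

end Pool.Agent.Helper29.OD
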